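import Mathlib

namespace Pool.Agent.Results.MP_eb164e_co.Bounds

open Finset

/-- `f` is a signed double Roman dominating function on `G`. -/
def IsSDRDF {V : Type} [Fintype V] (G : SimpleGraph V) [DecidableRel G.Adj] (f : V → ℤ) : Prop :=
  (∀ v, f v = -1 ∨ f v = 1 ∨ f v = 2 ∨ f v = 3) ∧
  (∀ u, f u = -1 → (∃ v, G.Adj u v ∧ f v = 3) ∨
    ∃ v w, v ≠ w ∧ G.Adj u v ∧ G.Adj u w ∧ f v = 2 ∧ f w = 2) ∧
  (∀ u, f u = 1 → ∃ v, G.Adj u v ∧ (f v = 2 ∨ f v = 3)) ∧
  (∀ u, 1 ≤ f u + ∑ w ∈ G.neighborFinset u, f w)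

def val : Fin 4 → ℤ := ![-1, 1, 2, 3]

def ok (c x y z : Fin 4) : Prop :=
  1 ≤ val c + (val x + (val y + val z)) ∧
  (c = 0 → x = 3 ∨ y = 3 ∨ z = 3 ∨ (x = 2 ∧ y = 2) ∨ (x = 2 ∧ z = 2) ∨ (y = 2 ∧ z = 2)) ∧
  (c = 1 → x = 2 ∨ x = 3 ∨ y = 2 ∨ y = 3 ∨ z = 2 ∨ z = 3)

instance (c x y z : Fin 4) : Decidable (ok c x y z) := by unfold ok; infer_instance

def W : Fin 4 → Fin 4 → ℤ := ![![5, 6, 6, 7], ![5, 6, 5, 5], ![4, 5, 5, 5], ![4, 5, 5, 5]]
def ph : Fin 4 → Fin 4 → ℤ :=
  ![![-1, -2, 0, 0], ![-4, -2, -2, -1], ![-4, -2, -2, -1], ![-6, -2, -2, -1]]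

theorem pend : ∀ s r a b : Fin 4, ok r s a b → ∀ c d : Fin 4, ok a r c d → ∀ e g : Fin 4,
    ok b r e g → ok c a e g → ok d a e g → ok e b c d → ok g b c d →
    W s r ≤ val r + val a + val b + val c + val d + val e + val g := by
  decide +kernel

theorem spine : ∀ x s y r : Fin 4, ok s r y x → 16 + ph x s - ph s y ≤ 3 * (val s + W s r) := by
  decide +kernel

def t1 : Fin 8 → Fin 8 := ![1, 0, 1, 1, 2, 2, 3, 3]
def t2 : Fin 8 → Fin 8 := ![0, 2, 4, 6, 6, 6, 4, 4]
def t3 : Fin 8 → Fin 8 := ![0, 3, 5, 7, 7, 7, 5, 5]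

abbrev V (N : ℕ) := ZMod (N + 3) × Fin 8

def n1 {N : ℕ} (u : V N) : V N := (u.1, t1 u.2)
def n2 {N : ℕ} (u : V N) : V N := (if u.2 = 0 then u.1 + 1 else u.1, t2 u.2)
def n3 {N : ℕ} (u : V N) : V N := (if u.2 = 0 then u.1 - 1 else u.1, t3 u.2)

theorem one_ne (N : ℕ) : (1 : ZMod (N + 3)) ≠ 0 := by
  intro h
  have : ((1 : ℕ) : ZMod (N + 3)) = 0 := by simpa using h
  rw [ZMod.natCast_eq_zero_iff] at this
  have := Nat.le_of_dvd (by norm_num) this
  omega

theorem two_ne (N : ℕ) : (2 : ZMod (N + 3)) ≠ 0 := by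
  intro h
  have : ((2 : ℕ) : ZMod (N + 3)) = 0 := by simpa using h
  rw [ZMod.natCast_eq_zero_iff] at this
  have := Nat.le_of_dvd (by norm_num) this
  omega

theorem symm' {N : ℕ} (u v : V N) (h : v = n1 u ∨ v = n2 u ∨ v = n3 u) :
    u = n1 v ∨ u = n2 v ∨ u = n3 v := by
  obtain ⟨i, a⟩ := u
  rcases h with rfl | rfl | rfl <;> fin_cases a <;> simp [n1, n2, n3, t1, t2, t3]

theorem irr {N : ℕ} (u : V N) : ¬ (u = n1 u ∨ u = n2 u ∨ u = n3 u) := by
  obtain ⟨i, a⟩ := u
  have h1 := one_ne N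
  have h3 : i ≠ i - 1 := fun h => h1 (by linear_combination h)
  fin_cases a <;> simp [n1, n2, n3, t1, t2, t3, h1, h3]

theorem dist {N : ℕ} (u : V N) : n1 u ≠ n2 u ∧ n1 u ≠ n3 u ∧ n2 u ≠ n3 u := by
  obtain ⟨i, a⟩ := u
  have h2 : i + 1 ≠ i - 1 := fun h => two_ne N (by linear_combination h)
  fin_cases a <;> simp [n1, n2, n3, t1, t2, t3, h2]

def G (N : ℕ) : SimpleGraph (V N) where
  Adj u v := v = n1 u ∨ v = n2 u ∨ v = n3 u
  symm := ⟨fun u v h => symm' u v h⟩
  loopless := ⟨fun u h => irr u h⟩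

instance (N : ℕ) : DecidableRel (G N).Adj := fun u v =>
  inferInstanceAs (Decidable (v = n1 u ∨ v = n2 u ∨ v = n3 u))

theorem nbr {N : ℕ} (u : V N) : (G N).neighborFinset u = {n1 u, n2 u, n3 u} := by
  ext v
  simp [G]

theorem conn (N : ℕ) : (G N).Connected := by
  have h1 : ∀ u : V N, (G N).Reachable u (n1 u) := fun u =>
    SimpleGraph.Adj.reachable (Or.inl rfl)
  have h0 : ∀ (i : ZMod (N + 3)) (a : Fin 8), (G N).Reachable (i, a) (i, 0) := by
    intro i a
    have e1 : (G N).Reachable (i, 1) (i, 0) := h1 (i, 1)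
    have e2 : (G N).Reachable (i, 2) (i, 0) := (h1 (i, 2)).trans e1
    have e3 : (G N).Reachable (i, 3) (i, 0) := (h1 (i, 3)).trans e1
    fin_cases a
    · exact SimpleGraph.Reachable.refl _
    · exact e1
    · exact e2
    · exact e3
    · exact (h1 (i, 4)).trans e2
    · exact (h1 (i, 5)).trans e2
    · exact (h1 (i, 6)).trans e3
    · exact (h1 (i, 7)).trans e3
  have h2 : ∀ m : ℕ, (G N).Reachable ((m : ZMod (N + 3)), 0) (0, 0) := by
    intro m
    induction m with
    | zero => simp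
    | succ m ih =>
      refine SimpleGraph.Reachable.trans (SimpleGraph.Adj.reachable ?_).symm ih
      exact Or.inr (Or.inl (by simp [n2, t2]))
  have h3 : ∀ u : V N, (G N).Reachable u (0, 0) := by
    rintro ⟨i, a⟩
    refine (h0 i a).trans ?_
    have := h2 i.val
    rwa [ZMod.natCast_zmod_val] at this
  exact ⟨fun u v => (h3 u).trans (h3 v).symm⟩

theorem loc {N : ℕ} (g : V N → Fin 4) (h : IsSDRDF (G N) (fun v => val (g v))) (u : V N) :
    ok (g u) (g (n1 u)) (g (n2 u)) (g (n3 u)) := by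
  obtain ⟨-, h1, h2, h3⟩ := h
  obtain ⟨d1, d2, d3⟩ := dist u
  have v2 : ∀ x : Fin 4, val x = 2 → x = 2 := by decide
  have v3 : ∀ x : Fin 4, val x = 3 → x = 3 := by decide
  refine ⟨?_, fun hc => ?_, fun hc => ?_⟩
  · have := h3 u
    rw [nbr, sum_insert (by simp [d1, d2]), sum_insert (by simp [d3]), sum_singleton] at this
    exact this
  · rcases h1 u (by simp only [hc]; rfl) with ⟨v, hv, e⟩ | ⟨v, w, hvw, hv, hw, e, e'⟩
    · have e := v3 _ e
      rcases hv with rfl | rfl | rfl <;> simp [e]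
    · have e := v2 _ e
      have e' := v2 _ e'
      rcases hv with rfl | rfl | rfl <;> rcases hw with rfl | rfl | rfl <;>
        first | exact absurd rfl hvw | simp [e, e']
  · obtain ⟨v, hv, e | e⟩ := h2 u (by simp only [hc]; rfl)
    · have e := v2 _ e
      rcases hv with rfl | rfl | rfl <;> simp [e]
    · have e := v3 _ e
      rcases hv with rfl | rfl | rfl <;> simp [e]

theorem bound {N : ℕ} (f : V N → ℤ) (h : IsSDRDF (G N) f) :
    2 * (Fintype.card (V N) : ℤ) ≤ 3 * ∑ v, f v := by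
  have hg : ∀ v, ∃ x : Fin 4, f v = val x := by
    intro v
    rcases h.1 v with e | e | e | e
    exacts [⟨0, e⟩, ⟨1, e⟩, ⟨2, e⟩, ⟨3, e⟩]
  choose g hg using hg
  obtain rfl : f = fun v => val (g v) := funext hg
  have L := loc g h
  have unit : ∀ i : ZMod (N + 3), 16 + ph (g (i - 1, 0)) (g (i, 0)) - ph (g (i, 0)) (g (i + 1, 0))
      ≤ 3 * ∑ a : Fin 8, val (g (i, a)) := by
    intro i
    have p := pend _ _ _ _ (L (i, 1)) _ _ (L (i, 2)) _ _ (L (i, 3)) (L (i, 4)) (L (i, 5))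
      (L (i, 6)) (L (i, 7))
    have s := spine _ _ _ _ (L (i, 0))
    rw [Fin.sum_univ_eight]
    have p' : W (g (i, 0)) (g (i, 1)) ≤ val (g (i, 1)) + val (g (i, 2)) + val (g (i, 3)) +
      val (g (i, 4)) + val (g (i, 5)) + val (g (i, 6)) + val (g (i, 7)) := p
    have s' : 16 + ph (g (i - 1, 0)) (g (i, 0)) - ph (g (i, 0)) (g (i + 1, 0)) ≤
      3 * (val (g (i, 0)) + W (g (i, 0)) (g (i, 1))) := s
    linarith
  have tel : ∑ i : ZMod (N + 3), ph (g (i - 1, 0)) (g (i, 0)) =
      ∑ i : ZMod (N + 3), ph (g (i, 0)) (g (i + 1, 0)) := by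
    rw [← Equiv.sum_comp (Equiv.addRight (1 : ZMod (N + 3)))]
    simp
  have S := sum_le_sum (fun i (_ : i ∈ (univ : Finset (ZMod (N + 3)))) => unit i)
  rw [sum_sub_distrib, sum_add_distrib, tel, ← mul_sum] at S
  rw [Fintype.sum_prod_type]
  simp only [sum_const, card_univ, ZMod.card, nsmul_eq_mul, Fintype.card_prod,
    Fintype.card_fin] at S ⊢
  push_cast at S ⊢
  linarith

/-- For every `N` there is a connected cubic graph with at least `N` vertices on which every
signed double Roman dominating function has weight at least `2/3` of the order. -/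
theorem lower (N : ℕ) : ∃ (V : Type) (_ : Fintype V) (G : SimpleGraph V)
    (_ : DecidableRel G.Adj), N ≤ Fintype.card V ∧ G.Connected ∧ (∀ v, G.degree v = 3) ∧
    ∀ f : V → ℤ, IsSDRDF G f → 2 * (Fintype.card V : ℤ) ≤ 3 * ∑ v, f v := by
  refine ⟨V N, inferInstance, G N, inferInstance, ?_, conn N, fun u => ?_, fun f h => bound f h⟩
  · simp [ZMod.card]; omega
  · obtain ⟨d1, d2, d3⟩ := dist u
    rw [← SimpleGraph.card_neighborFinset_eq_degree, nbr,
      card_insert_of_notMem (by simp [d1, d2]), card_insert_of_notMem (by simp [d3]),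
      card_singleton]

theorem hit {V : Type} [DecidableEq V] (e : V → Finset V) (he : ∀ u, (e u).card = 3) :
    ∀ (m : ℕ) (S X : Finset V), S.card = m → (∀ u ∈ S, e u ⊆ X) →
      ∃ D : Finset V, (∀ u ∈ S, ∃ x ∈ D, x ∈ e u) ∧ 5 * D.card ≤ X.card + 2 * S.card := by
  intro m
  induction m using Nat.strong_induction_on with
  | _ m ih =>
    intro S X hm hX
    by_cases h2 : ∃ x, ∃ u ∈ S, ∃ w ∈ S, u ≠ w ∧ x ∈ e u ∧ x ∈ e w
    · obtain ⟨x, u, hu, w, hw, huw, xu, xw⟩ := h2
      have hsub : S.filter (fun a => x ∉ e a) ⊆ (S.erase u).erase w := by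
        intro a ha
        rw [mem_filter] at ha
        simp only [mem_erase]
        exact ⟨fun h => ha.2 (h ▸ xw), fun h => ha.2 (h ▸ xu), ha.1⟩
      have c1 := card_le_card hsub
      rw [card_erase_of_mem (mem_erase.2 ⟨huw.symm, hw⟩), card_erase_of_mem hu] at c1
      have c2 : 1 < S.card := one_lt_card.2 ⟨u, hu, w, hw, huw⟩
      obtain ⟨D, hD, hc⟩ := ih _ (by omega) (S.filter (fun a => x ∉ e a)) (X.erase x) rfl (by
        intro a ha y hy
        rw [mem_filter] at ha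
        exact mem_erase.2 ⟨fun h => ha.2 (h ▸ hy), hX a ha.1 hy⟩)
      have hx : x ∈ X := hX u hu xu
      rw [card_erase_of_mem hx] at hc
      have c3 : 0 < X.card := card_pos.2 ⟨x, hx⟩
      have c4 := card_insert_le x D
      refine ⟨insert x D, fun a ha => ?_, by omega⟩
      by_cases hxa : x ∈ e a
      · exact ⟨x, mem_insert_self _ _, hxa⟩
      · obtain ⟨y, hy, hy'⟩ := hD a (mem_filter.2 ⟨ha, hxa⟩)
        exact ⟨y, mem_insert_of_mem hy, hy'⟩
    · rcases S.eq_empty_or_nonempty with rfl | ⟨u, hu⟩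
      · exact ⟨∅, by simp, by simp⟩
      · obtain ⟨x, hx⟩ : (e u).Nonempty := card_pos.1 (by rw [he]; norm_num)
        have c0 := card_erase_of_mem hu
        have c2 : 0 < S.card := card_pos.2 ⟨u, hu⟩
        obtain ⟨D, hD, hc⟩ := ih _ (by omega) (S.erase u) (X \ e u) rfl (by
          intro a ha y hy
          rw [mem_erase] at ha
          exact mem_sdiff.2 ⟨hX a ha.2 hy, fun h => h2 ⟨y, a, ha.2, u, hu, ha.1, hy, h⟩⟩)
        have c5 := card_sdiff_add_card_eq_card (hX u hu)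
        have c6 := he u
        have c4 := card_insert_le x D
        refine ⟨insert x D, fun a ha => ?_, by omega⟩
        by_cases hau : a = u
        · exact ⟨x, mem_insert_self _ _, hau ▸ hx⟩
        · obtain ⟨y, hy, hy'⟩ := hD a (mem_erase.2 ⟨hau, ha⟩)
          exact ⟨y, mem_insert_of_mem hy, hy'⟩

theorem cut {V : Type} [Fintype V] [DecidableEq V] (G : SimpleGraph V) [DecidableRel G.Adj] :
    ∃ σ : V → ℤ, (∀ v, σ v = 1 ∨ σ v = -1) ∧ ∀ u, σ u * ∑ w ∈ G.neighborFinset u, σ w ≤ 0 := by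
  let s : (V → Bool) → V → ℤ := fun c v => if c v then 1 else -1
  let E : (V → Bool) → ℤ := fun c => ∑ a, s c a * ∑ w ∈ G.neighborFinset a, s c w
  obtain ⟨c, -, hc⟩ := exists_min_image (univ : Finset (V → Bool)) E ⟨fun _ => true, mem_univ _⟩
  refine ⟨s c, fun v => by simp only [s]; split_ifs <;> simp, fun u => ?_⟩
  have h := hc (Function.update c u (!c u)) (mem_univ _)
  have hs : ∀ v, s (Function.update c u (!c u)) v = s c v - if v = u then 2 * s c u else 0 := by
    intro v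
    by_cases hv : v = u
    · subst hv
      simp only [s, Function.update_self, if_true]
      cases c v <;> simp
    · simp only [s, Function.update_of_ne hv, if_neg hv, sub_zero]
  have hh : ∀ a, ∑ w ∈ G.neighborFinset a, s (Function.update c u (!c u)) w =
      ∑ w ∈ G.neighborFinset a, s c w - if a ∈ G.neighborFinset u then 2 * s c u else 0 := by
    intro a
    simp only [hs, sum_sub_distrib, sum_ite_eq', SimpleGraph.mem_neighborFinset, G.adj_comm a u]
  have hE : E (Function.update c u (!c u)) =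
      E c - 4 * (s c u * ∑ w ∈ G.neighborFinset u, s c w) := by
    have e1 : ∀ a, s (Function.update c u (!c u)) a *
        ∑ w ∈ G.neighborFinset a, s (Function.update c u (!c u)) w =
        s c a * ∑ w ∈ G.neighborFinset a, s c w
          - (if a ∈ G.neighborFinset u then 2 * s c u * s c a else 0)
          - (if a = u then 2 * s c u * ∑ w ∈ G.neighborFinset u, s c w else 0) := by
      intro a
      rw [hh, hs]
      by_cases hau : a = u
      · subst hau
        simp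
        ring
      · rw [if_neg hau, if_neg hau]
        split_ifs <;> ring
    simp only [E, e1, sum_sub_distrib, sum_ite_eq', mem_univ, if_true, sum_ite_mem, univ_inter,
      ← mul_sum]
    ring
  rw [hE] at h
  linarith

theorem good {V : Type} [Fintype V] [DecidableEq V] (G : SimpleGraph V) [DecidableRel G.Adj]
    (h3 : ∀ v, G.degree v = 3) (σ : V → ℤ) (hσ : ∀ v, σ v = 1 ∨ σ v = -1)
    (hm : ∀ u, σ u * ∑ w ∈ G.neighborFinset u, σ w ≤ 0) (D : Finset V)
    (hD : ∀ u, ∃ x ∈ D, x ∈ G.neighborFinset u) :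
    IsSDRDF G (fun v => if σ v = 1 then 2 else if v ∈ D then 1 else -1) := by
  have key : ∀ u, σ u = -1 → ∃ v w, v ≠ w ∧ G.Adj u v ∧ G.Adj u w ∧ σ v = 1 ∧ σ w = 1 := by
    intro u hu
    obtain ⟨x, y, z, xy, xz, yz, hN⟩ := card_eq_three.1 (h3 u)
    have ax : G.Adj u x := by rw [← G.mem_neighborFinset, hN]; simp
    have ay : G.Adj u y := by rw [← G.mem_neighborFinset, hN]; simp
    have az : G.Adj u z := by rw [← G.mem_neighborFinset, hN]; simp
    have := hm u
    rw [hN, sum_insert (by simp [xy, xz]), sum_insert (by simp [yz]), sum_singleton, hu] at this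
    rcases hσ x with ex | ex <;> rcases hσ y with ey | ey <;> rcases hσ z with ez | ez <;>
      first
      | exact ⟨x, y, xy, ax, ay, ex, ey⟩
      | exact ⟨x, z, xz, ax, az, ex, ez⟩
      | exact ⟨y, z, yz, ay, az, ey, ez⟩
      | (exfalso; omega)
  have neg : ∀ u, σ u ≠ 1 → σ u = -1 := fun u h => (hσ u).resolve_left h
  refine ⟨fun v => ?_, fun u hu => ?_, fun u hu => ?_, fun u => ?_⟩
  · dsimp only; split_ifs <;> simp
  · obtain ⟨v, w, a, b, c, d, e⟩ := key u (neg u (fun h => by simp [h] at hu))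
    exact Or.inr ⟨v, w, a, b, c, by simp [d], by simp [e]⟩
  · obtain ⟨v, w, a, b, c, d, e⟩ := key u (neg u (fun h => by simp [h] at hu))
    exact ⟨v, b, Or.inl (by simp [d])⟩
  · obtain ⟨x, y, z, xy, xz, yz, hN⟩ := card_eq_three.1 (h3 u)
    have hm' := hm u
    obtain ⟨t, htD, ht⟩ := hD u
    have hd : x ∈ D ∨ y ∈ D ∨ z ∈ D := by
      rw [hN] at ht
      simp only [mem_insert, mem_singleton] at ht
      rcases ht with rfl | rfl | rfl <;> simp [htD]
    rw [hN, sum_insert (by simp [xy, xz]), sum_insert (by simp [yz]), sum_singleton] at hm' ⊢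
    by_cases dx : x ∈ D <;> by_cases dy : y ∈ D <;> by_cases dz : z ∈ D <;>
      by_cases du : u ∈ D <;>
      rcases hσ u with eu | eu <;> rcases hσ x with ex | ex <;> rcases hσ y with ey | ey <;>
      rcases hσ z with ez | ez <;> simp [dx, dy, dz, du, eu, ex, ey, ez] at hm' hd ⊢

theorem upper {V : Type} [Fintype V] (G : SimpleGraph V) [DecidableRel G.Adj]
    (h3 : ∀ v, G.degree v = 3) :
    ∃ f : V → ℤ, IsSDRDF G f ∧ 10 * ∑ v, f v ≤ 11 * (Fintype.card V : ℤ) := by
  classical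
  obtain ⟨σ, hσ, hm⟩ := cut G
  obtain ⟨D, hD, hc⟩ := hit (fun u => G.neighborFinset u) h3 _ univ univ rfl
    (fun _ _ => subset_univ _)
  have g1 := good G h3 σ hσ hm D (fun u => hD u (mem_univ _))
  have g2 := good G h3 (fun v => - σ v) (fun v => by rcases hσ v with h | h <;> simp [h])
    (fun u => by simpa using hm u) D (fun u => hD u (mem_univ _))
  have hsum : ∑ v, (if σ v = 1 then (2 : ℤ) else if v ∈ D then 1 else -1) +
      ∑ v, (if - σ v = 1 then (2 : ℤ) else if v ∈ D then 1 else -1) =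
      Fintype.card V + 2 * D.card := by
    rw [← sum_add_distrib]
    have : ∀ v, (if σ v = 1 then (2 : ℤ) else if v ∈ D then 1 else -1) +
        (if - σ v = 1 then (2 : ℤ) else if v ∈ D then 1 else -1) =
        1 + if v ∈ D then 2 else 0 := by
      intro v
      rcases hσ v with h | h <;> by_cases hv : v ∈ D <;> simp [h, hv]
    simp only [this, sum_add_distrib, sum_ite_mem, univ_inter, sum_const, card_univ]
    simp [mul_comm]
  rw [card_univ] at hc
  have hc' : (5 * D.card : ℤ) ≤ Fintype.card V + 2 * Fintype.card V := by exact_mod_cast hc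
  by_cases hle : ∑ v, (if σ v = 1 then (2 : ℤ) else if v ∈ D then 1 else -1) ≤
      ∑ v, (if - σ v = 1 then (2 : ℤ) else if v ∈ D then 1 else -1)
  · exact ⟨_, g1, by linarith⟩
  · exact ⟨_, g2, by push Not at hle; linarith⟩

/-- Lower bound `2/3` for connected cubic graphs of unbounded order, and upper bound `11/10`
for all cubic graphs. -/
theorem result :
    (∀ N : ℕ, ∃ (V : Type) (_ : Fintype V) (G : SimpleGraph V)
      (_ : DecidableRel G.Adj), N ≤ Fintype.card V ∧ G.Connected ∧ (∀ v, G.degree v = 3) ∧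
      ∀ f : V → ℤ, IsSDRDF G f → 2 * (Fintype.card V : ℤ) ≤ 3 * ∑ v, f v) ∧
    (∀ (V : Type) [Fintype V] (G : SimpleGraph V) [DecidableRel G.Adj], (∀ v, G.degree v = 3) →
      ∃ f : V → ℤ, IsSDRDF G f ∧ 10 * ∑ v, f v ≤ 11 * (Fintype.card V : ℤ)) :=
  ⟨lower, fun _ _ G _ h => upper G h⟩

end Pool.Agent.Results.MP_eb164e_co.Bounds
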